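import Pool.Agent.Q239.U.UFinal

/-!
# The uniform abc conjecture follows from its restriction to almost-powers

Let `(p, q, r)` be one of `(3,3,3)`, `(2,4,4)`, `(2,3,6)` and `δ > 0`. The abc inequality
`H ≤ C (δ_K N) ^ (1 + ε)` with a constant `C` which does not depend on the number field `K`, for all
triples over all number fields, is equivalent to the same inequality for the triples
`(u a ^ p, v b ^ q, w c ^ r)` with `H (1, u, v, w) ≤ H ^ δ`.
-/

set_option autoImplicit false

namespace Pool.Agent.Results.MP_6e34ef_nt.AlmostPowersAllFields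

open NumberField Pool.Agent.Q239.NF Pool.Agent.Q239.U

/-- the vectors `x = (u a ^ p, v b ^ q, w c ^ r)` of nonzero numbers with
`H (1, u, v, w) ≤ H (x) ^ δ` -/
def AlmostPowers {K : Type} [Field K] [NumberField K] (p q r : ℕ) (δ : ℝ) : Set (Fin 3 → K) :=
  {x | ∃ u v w a b c : K, u ≠ 0 ∧ v ≠ 0 ∧ w ≠ 0 ∧ a ≠ 0 ∧ b ≠ 0 ∧ c ≠ 0 ∧
    x = ![u * a ^ p, v * b ^ q, w * c ^ r] ∧ height ![1, u, v, w] ≤ δ * height x}

lemma almost_eq {K : Type} [Field K] [NumberField K] (p q r : ℕ) (δ : ℝ) :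
    AlmostPowers (K := K) p q r δ = Almost p q r δ := by
  have hd := finrank_pos' (K := K)
  ext x
  unfold AlmostPowers Almost height
  simp only [Set.mem_ofPred_eq]
  have : ∀ a b : ℝ, a / (Module.finrank ℚ K : ℝ) ≤ δ * (b / (Module.finrank ℚ K : ℝ)) ↔
      a ≤ δ * b := by
    intro a b
    rw [← mul_div_assoc, div_le_div_iff_of_pos_right hd]
  simp only [this]

/-- The uniform abc conjecture over all number fields is equivalent to its restriction to
almost-powers of signature `(3,3,3)`, `(2,4,4)` or `(2,3,6)`. -/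
theorem result (p q r : ℕ)
    (h : (p, q, r) = (3, 3, 3) ∨ (p, q, r) = (2, 4, 4) ∨ (p, q, r) = (2, 3, 6))
    (δ : ℝ) (hδ : 0 < δ) :
    UniformABC (fun _ _ _ => Set.univ) ↔
      UniformABC (fun K _ _ => AlmostPowers (K := K) p q r δ) := by
  refine ⟨uniform_mono fun K _ _ => Set.subset_univ _, fun hA => ?_⟩
  have hA' : UniformABC (fun K _ _ => Almost (K := K) p q r δ) :=
    uniform_mono (fun K _ _ => (almost_eq p q r δ).symm.subset) hA
  rw [uniform_iff] at hA' ⊢
  rcases h with h | h | h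
  · obtain ⟨rfl, rfl, rfl⟩ : p = 3 ∧ q = 3 ∧ r = 3 := by simpa [Prod.mk.injEq] using h
    exact ualmost33 hδ hA'
  · obtain ⟨rfl, rfl, rfl⟩ : p = 2 ∧ q = 4 ∧ r = 4 := by simpa [Prod.mk.injEq] using h
    exact ualmost24 hδ hA'
  · obtain ⟨rfl, rfl, rfl⟩ : p = 2 ∧ q = 3 ∧ r = 6 := by simpa [Prod.mk.injEq] using h
    exact ualmost26 hδ hA'

end Pool.Agent.Results.MP_6e34ef_nt.AlmostPowersAllFields
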