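import Pool.Agent.Q290.NF.Triple
import Pool.Agent.Q290.NF.Hyp

/-!
# The uniform abc conjecture and points of all degrees on the curves `y ^ 2 = 1 - 4 x ^ l`

The uniform abc conjecture (one constant for all number fields of all degrees) is equivalent to
Vojta's inequality with `D = 0`, with one constant for the algebraic points of all degrees, on the
hyperelliptic curves `y ^ 2 = 1 - 4 x ^ l`, `l` odd, and there only for the points with `y = T(u)`,
where `T` is the Chebyshev polynomial of degree `2 ^ k` and `u` is in the field of the point. The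
canonical height of the curve is `(l - 3) / 2 h(x)`.
-/

set_option autoImplicit false

namespace Pool.Agent.Results.MP_6e34ef_nt.HyperellipticCurvesSuffice

open Polynomial IsDedekindDomain NumberField

/-- The absolute logarithmic height of the point `x` of the line. -/
noncomputable def height {L : Type} [Field L] [NumberField L] (x : L) : ℝ :=
  Height.logHeight₁ x / Module.finrank ℚ L

/-- `log δ_K`, the logarithm of the root discriminant. -/
noncomputable def logRootDisc (L : Type) [Field L] [NumberField L] : ℝ :=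
  Real.log |(NumberField.discr L : ℝ)| / Module.finrank ℚ L

/-- `log H(a, b, c)` -/
noncomputable def logH {K : Type} [Field K] [NumberField K] (a b c : K) : ℝ :=
  Height.logHeight ![a, b, c] / Module.finrank ℚ K

open Classical in
/-- `log N(a, b, c)`, the logarithm of the conductor: the sum of `log N(v) / [K : ℚ]` over the primes
`v` at which `a`, `b`, `c` do not all have the same absolute value. -/
noncomputable def logN {K : Type} [Field K] [NumberField K] (a b c : K) : ℝ :=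
  (∑ᶠ v : HeightOneSpectrum (𝓞 K),
    if ¬ (v.valuation K a = v.valuation K b ∧ v.valuation K b = v.valuation K c)
    then Real.log (Ideal.absNorm v.asIdeal) else 0) / Module.finrank ℚ K

/-- The uniform abc conjecture: for every `ε > 0` there is `C` such that
`log H(a, b, c) ≤ (1 + ε) (log δ_K + log N(a, b, c)) + C` for all number fields `K` and all nonzero
`a`, `b`, `c` in `K` with `a + b + c = 0`. -/
def UniformABC : Prop :=
  ∀ ε : ℝ, 0 < ε → ∃ C : ℝ, ∀ (K : Type) [Field K] [NumberField K], ∀ a b c : K,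
    a ≠ 0 → b ≠ 0 → c ≠ 0 → a + b + c = 0 →
      logH a b c ≤ (1 + ε) * (logRootDisc K + logN a b c) + C

/-- There is `c` such that `(l - κ) / 2 h(x) ≤ log δ_M + c` for ALL number fields `M` and all points
`(x, y)` over `M` of the hyperelliptic curve `y ^ 2 = 1 - 4 x ^ l` with `y = T(u)` for some `u` in
`M`, where `T` is the Chebyshev polynomial of degree `2 ^ k`. -/
def UniformHyperelliptic (k l : ℕ) (κ : ℝ) : Prop :=
  ∃ c : ℝ, ∀ (M : Type) [Field M] [NumberField M],
    ∀ x y u : M, y ^ 2 = 1 - 4 * x ^ l → y = (Chebyshev.T M ((2 : ℤ) ^ k)).eval u →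
      (l - κ) / 2 * height x ≤ logRootDisc M + c

open Pool.Agent.Q290.NF

theorem disc_nonneg (L : Type) [Field L] [NumberField L] :
    0 ≤ Real.log |(NumberField.discr L : ℝ)| := by
  refine Real.log_nonneg ?_
  have h5 : (1 : ℤ) ≤ |discr L| := Int.one_le_abs (discr_ne_zero L)
  have h6 : |(discr L : ℝ)| = ((|discr L| : ℤ) : ℝ) := by push_cast; rfl
  rw [h6]
  exact_mod_cast h5

theorem logRootDisc_nonneg (L : Type) [Field L] [NumberField L] : 0 ≤ logRootDisc L :=
  div_nonneg (disc_nonneg L) (Nat.cast_nonneg _)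

theorem height_nonneg {L : Type} [Field L] [NumberField L] (x : L) : 0 ≤ height x :=
  div_nonneg (Height.zero_le_logHeight₁ _) (Nat.cast_nonneg _)

theorem logN_eq {K : Type} [Field K] [NumberField K] (a b c : K) :
    logN a b c = wt (Rad a b c) / Module.finrank ℚ K := by
  unfold logN wt
  congr 1
  refine finsum_congr fun w => ?_
  by_cases h : Rad a b c w
  · rw [ind_pos h]
    unfold Rad at h
    rw [if_pos h]
    rfl
  · rw [ind_neg h]
    unfold Rad at h
    rw [if_neg h]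

theorem tv_map {L E : Type} [Field L] [Field E] [Algebra L E] (k : ℕ) (u : L) :
    algebraMap L E (tv k u) = (Chebyshev.T E ((2 : ℤ) ^ k)).eval (algebraMap L E u) := by
  unfold tv
  rw [← Chebyshev.map_T (algebraMap L E), eval_map_algebraMap, aeval_algebraMap_apply]
  rfl

theorem to_abc {k : ℕ} (h : ∀ δ : ℝ, 0 < δ → ∃ l : ℕ, 1 ≤ l ∧
    UniformHyperelliptic k l (δ * l)) : UniformABC := by
  intro ε hε
  obtain ⟨η, hη⟩ : ∃ η : ℝ, η = ε / (1 + ε) := ⟨_, rfl⟩
  have hη0 : 0 < η := by rw [hη]; positivity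
  have hη1 : (1 - η) * (1 + ε) = 1 := by rw [hη]; field_simp; ring
  have hη2 : η ≤ 1 := by rw [hη, div_le_one (by positivity)]; linarith
  obtain ⟨δ, hδ⟩ : ∃ δ : ℝ, δ = η / 2 ^ k := ⟨_, rfl⟩
  have h2k : (1 : ℝ) ≤ 2 ^ k := one_le_pow₀ (by norm_num)
  have hδ0 : 0 < δ := by rw [hδ]; positivity
  have hδ1 : δ ≤ 1 := by
    rw [hδ, div_le_one (by positivity)]
    linarith
  have hδη : 2 ^ k * δ = η := by rw [hδ]; field_simp
  obtain ⟨l, hl, c, hc⟩ := h δ hδ0
  have hl0 : l ≠ 0 := by omega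
  obtain ⟨C1, hC1⟩ : ∃ C1 : ℝ, C1 = max (c + 3 / 2 * Real.log 2 +
    (Real.log ((2 * l : ℕ) : ℝ) + Real.log (l.factorial : ℝ))) 0 := ⟨_, rfl⟩
  have hC10 : 0 ≤ C1 := by rw [hC1]; exact le_max_right _ _
  have hlog : 0 ≤ Real.log 2 := Real.log_nonneg (by norm_num)
  refine ⟨(1 + ε) * (Real.log 2 + (C1 + k * (3 * Real.log 2))) + 4 * Real.log 2, ?_⟩
  intro K _ _ a b c' ha hb hcc habc
  rw [logN_eq]
  unfold logH logRootDisc
  obtain ⟨d, hd⟩ : ∃ d : ℝ, d = (Module.finrank ℚ K : ℝ) := ⟨_, rfl⟩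
  have hd0 : 0 < d := by rw [hd]; exact_mod_cast Module.finrank_pos
  have hD0 := disc_nonneg K
  have hW0 := wt_nonneg (K := K) (Rad a b c')
  by_cases hab : b - a = 0
  · have e1 : b = a := by linear_combination hab
    have e2 : c' = -(a + a) := by rw [e1] at habc; linear_combination habc
    have h1 := height_three_le a a
    rw [div_self ha, Height.logHeight₁_one, zero_add] at h1
    rw [e1, e2, ← hd]
    rw [← hd] at h1
    have h2 : Height.logHeight ![a, a, -(a + a)] / d ≤ Real.log 2 := by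
      rw [div_le_iff₀ hd0]
      linarith
    have h3 : 0 ≤ (1 + ε) * (Real.log |(NumberField.discr K : ℝ)| / d +
        wt (Rad a a (-(a + a))) / d) := by
      have := wt_nonneg (K := K) (Rad a a (-(a + a)))
      positivity
    have h4 : 0 ≤ (1 + ε) * (Real.log 2 + (C1 + k * (3 * Real.log 2))) := by positivity
    linarith
  obtain ⟨hgen, k1, k2, -, k3, -⟩ := triple ha hb hcc habc hab
  obtain ⟨s, hs⟩ : ∃ s : K, s = (b - a) / (b + a) := ⟨_, rfl⟩
  rw [← hs] at hgen k1 k2 k3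
  have hcount : ∀ t : K, wt (fun w : HeightOneSpectrum (𝓞 K) => True ∧ Near t w) =
      wt (fun w => Near t w) := by
    intro t
    congr 1
    funext w
    rw [true_and]
  have hthin : ∀ u : K, Gen (tv k u)⁻¹ → (1 - δ) * Height.logHeight₁ (tv k u)⁻¹ ≤
      wt (fun w => True ∧ Near (tv k u)⁻¹ w) + Real.log |(NumberField.discr K : ℝ)| +
        Module.finrank ℚ K * C1 := by
    intro u hu
    obtain ⟨E, i1, i2, i3, x, hxy, -, hh, hdisc⟩ := up1 K hl0 hu
    have h1 := hc E x (algebraMap K E (tv k u)) (algebraMap K E u) hxy (by rw [tv_map])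
    unfold height logRootDisc at h1
    rw [hcount]
    rw [← hd] at hh hdisc ⊢
    obtain ⟨H, hH⟩ : ∃ H : ℝ, H = Height.logHeight₁ (tv k u)⁻¹ := ⟨_, rfl⟩
    obtain ⟨X, hX⟩ : ∃ X : ℝ, X = Height.logHeight₁ x / Module.finrank ℚ E := ⟨_, rfl⟩
    obtain ⟨W, hW⟩ : ∃ W : ℝ, W = wt (fun v => Near (tv k u)⁻¹ v) := ⟨_, rfl⟩
    obtain ⟨D, hD⟩ : ∃ D : ℝ, D = Real.log |(NumberField.discr K : ℝ)| := ⟨_, rfl⟩
    rw [← hH] at hh ⊢
    rw [← hX] at hh h1
    rw [← hW, ← hD] at hdisc ⊢
    have h3 : (1 - δ) * (H / d) ≤ (1 - δ) * (l / 2 * X + 3 / 2 * Real.log 2) :=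
      mul_le_mul_of_nonneg_left hh (by linarith)
    have h4 : 0 ≤ δ * (3 / 2 * Real.log 2) := by positivity
    have h5 : c + 3 / 2 * Real.log 2 +
        (Real.log ((2 * l : ℕ) : ℝ) + Real.log (l.factorial : ℝ)) ≤ C1 := by
      rw [hC1]
      exact le_max_left _ _
    have h6 : (1 - δ) * (H / d) ≤ W / d + D / d + C1 := by nlinarith
    have h7 := mul_le_mul_of_nonneg_right h6 hd0.le
    have e1 : (1 - δ) * (H / d) * d = (1 - δ) * H := by field_simp
    have e2 : (W / d + D / d + C1) * d = W + D + d * C1 := by field_simp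
    rwa [e1, e2] at h7
  have h2 := down (K := K) (fun _ => True) (disc_nonneg K) k hC10 hδ0.le hthin s hgen
  rw [hcount, hδη] at h2
  rw [← hd] at h2 k1 k3 ⊢
  obtain ⟨H, hH⟩ : ∃ H : ℝ, H = Height.logHeight₁ s⁻¹ := ⟨_, rfl⟩
  obtain ⟨W, hW⟩ : ∃ W : ℝ, W = wt (fun v => Near s⁻¹ v) := ⟨_, rfl⟩
  obtain ⟨R, hR⟩ : ∃ R : ℝ, R = wt (Rad a b c') := ⟨_, rfl⟩
  obtain ⟨D, hD⟩ : ∃ D : ℝ, D = Real.log |(NumberField.discr K : ℝ)| := ⟨_, rfl⟩
  rw [← hH] at h2 k1
  rw [← hW] at h2 k3
  rw [← hR] at k3 ⊢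
  rw [← hD] at h2 ⊢
  have h3 : H ≤ (1 + ε) * (R + d * Real.log 2 + D + d * (C1 + k * (3 * Real.log 2))) := by
    have h4 : H = (1 + ε) * ((1 - η) * H) := by
      rw [← mul_assoc, mul_comm (1 + ε), hη1, one_mul]
    rw [h4]
    refine mul_le_mul_of_nonneg_left ?_ (by linarith)
    linarith
  rw [div_le_iff₀ hd0]
  refine (k1.trans (add_le_add_left h3 _)).trans (le_of_eq ?_)
  field_simp
  ring

theorem of_abc {k l : ℕ} (hl : Odd l) (h : UniformABC) {ε : ℝ} (hε : 0 < ε) :
    UniformHyperelliptic k l (3 + ε) := by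
  have hl' : 1 ≤ l := hl.pos
  have hl0 : l ≠ 0 := by omega
  have hl1 : (1 : ℝ) ≤ l := by exact_mod_cast hl'
  have hl2 : (0 : ℝ) < l := by linarith
  obtain ⟨e, he⟩ : ∃ e : ℝ, e = ε / l := ⟨_, rfl⟩
  have he0 : 0 < e := by rw [he]; positivity
  have hel : e * l = ε := by rw [he]; field_simp
  obtain ⟨C, hC⟩ := h e he0
  have hlog : 0 ≤ Real.log 2 := Real.log_nonneg (by norm_num)
  refine ⟨max C 0 + 7 * Real.log 2, ?_⟩
  intro M _ _ x s u hxy hu
  have hD := logRootDisc_nonneg M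
  have hC0 := le_max_right C 0
  have hC1 := le_max_left C 0
  obtain ⟨d, hd⟩ : ∃ d : ℝ, d = (Module.finrank ℚ M : ℝ) := ⟨_, rfl⟩
  have hd0 : 0 < d := by rw [hd]; exact_mod_cast Module.finrank_pos
  -- small heights
  have hsmall : l * Height.logHeight₁ x ≤ 2 * (d * Real.log 2) →
      (l - (3 + ε)) / 2 * height x ≤ logRootDisc M + (max C 0 + 7 * Real.log 2) := by
    intro h1
    have h2 : (l : ℝ) * height x ≤ 2 * Real.log 2 := by
      unfold height
      rw [← hd, mul_div_assoc', div_le_iff₀ hd0]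
      linarith
    have h3 := mul_nonneg (by linarith : (0 : ℝ) ≤ 3 + ε) (height_nonneg x)
    have e : (l - (3 + ε)) / 2 * height x = (l * height x - (3 + ε) * height x) / 2 := by ring
    rw [e]
    linarith
  by_cases hx : x = 0
  · apply hsmall
    rw [hx, Height.logHeight₁_zero, mul_zero]
    positivity
  by_cases hs : s = 0
  · apply hsmall
    rw [← Height.logHeight₁_pow]
    have : x ^ l = ((2 : M) ^ 2)⁻¹ := by
      refine eq_inv_of_mul_eq_one_left ?_
      rw [hs] at hxy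
      linear_combination hxy
    rw [this, Height.logHeight₁_inv, Height.logHeight₁_pow, hd]
    have := height_two' M
    push_cast
    linarith
  obtain ⟨-, hw, hh⟩ := down_hyp hl hx hs hxy
  have hxl : x ^ l ≠ 0 := pow_ne_zero _ hx
  have h2 : (2 : M) ≠ 0 := two_ne_zero
  have h4 : (4 : M) ≠ 0 := by
    have e : (4 : M) = 2 * 2 := by norm_num
    rw [e]
    exact mul_ne_zero h2 h2
  have hfac : (1 - s) * (1 + s) = 4 * x ^ l := by linear_combination -hxy
  have hne : (1 - s) * (1 + s) ≠ 0 := by rw [hfac]; exact mul_ne_zero h4 hxl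
  have ha : (1 - s) ≠ 0 := left_ne_zero_of_mul hne
  have hb : (1 + s) ≠ 0 := right_ne_zero_of_mul hne
  have hsum : (1 - s) + (1 + s) + -2 = 0 := by ring
  have hbs : (1 + s) - (1 - s) ≠ 0 := by
    have : (1 + s) - (1 - s) = 2 * s := by ring
    rw [this]
    exact mul_ne_zero h2 hs
  obtain ⟨-, -, k2, -, -, k4⟩ := triple ha hb (neg_ne_zero.2 h2) hsum hbs
  have es : ((1 + s) - (1 - s)) / ((1 + s) + (1 - s)) = s := by
    have e1 : (1 + s) - (1 - s) = 2 * s := by ring
    have e2 : (1 + s) + (1 - s) = 2 := by ring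
    rw [e1, e2]
    field_simp
  rw [es] at k2 k4
  have h1 := hC M (1 - s) (1 + s) (-2) ha hb (neg_ne_zero.2 h2) hsum
  rw [logN_eq] at h1
  unfold logH logRootDisc at h1
  unfold height logRootDisc
  unfold logRootDisc at hD
  rw [← hd] at hw hh h1 hD k2 k4 ⊢
  obtain ⟨H, hH⟩ : ∃ H : ℝ, H = Height.logHeight₁ s⁻¹ := ⟨_, rfl⟩
  obtain ⟨G, hG⟩ : ∃ G : ℝ, G = Height.logHeight ![1 - s, 1 + s, -2] := ⟨_, rfl⟩
  obtain ⟨X, hX⟩ : ∃ X : ℝ, X = Height.logHeight₁ x := ⟨_, rfl⟩
  obtain ⟨W, hW⟩ : ∃ W : ℝ, W = wt (fun v => Near s⁻¹ v) := ⟨_, rfl⟩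
  obtain ⟨R, hR⟩ : ∃ R : ℝ, R = wt (Rad (1 - s) (1 + s) (-2)) := ⟨_, rfl⟩
  obtain ⟨D, hDD⟩ : ∃ D : ℝ, D = Real.log |(NumberField.discr M : ℝ)| := ⟨_, rfl⟩
  rw [← hH] at hh k2
  rw [← hG] at k2 h1
  rw [← hX] at hh hw ⊢
  rw [← hW] at hw k4
  rw [← hR] at k4 h1
  rw [← hDD] at h1 hD ⊢
  have hX0 : 0 ≤ X := by rw [hX]; exact Height.zero_le_logHeight₁ _
  have hdl : 0 ≤ d * Real.log 2 := mul_nonneg hd0.le hlog
  -- multiply by `d`
  have h5 : G ≤ (1 + e) * (D + R) + d * C := by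
    have h6 := mul_le_mul_of_nonneg_right h1 hd0.le
    have e1 : G / d * d = G := by field_simp
    have e2 : ((1 + e) * (D / d + R / d) + C) * d = (1 + e) * (D + R) + d * C := by field_simp
    rwa [e1, e2] at h6
  have h6 : d * C ≤ d * max C 0 := mul_le_mul_of_nonneg_left hC1 hd0.le
  have h7 : R ≤ 3 / 2 * X + 2 * (d * Real.log 2) := by linarith
  have h8 : (1 + e) * (D + R) ≤ (1 + e) * (D + (3 / 2 * X + 2 * (d * Real.log 2))) :=
    mul_le_mul_of_nonneg_left (by linarith) (by linarith)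
  -- `l / 2 X ≤ (1 + e) (D + 3 / 2 X + 2 d log 2) + d C + 9 / 2 d log 2`
  have h9 : l / 2 * X ≤ (1 + e) * (D + 3 / 2 * X + 2 * (d * Real.log 2)) + d * max C 0 +
      9 / 2 * (d * Real.log 2) := by
    have e3 : (1 + e) * (D + (3 / 2 * X + 2 * (d * Real.log 2))) =
        (1 + e) * (D + 3 / 2 * X + 2 * (d * Real.log 2)) := by ring
    linarith
  have h10 : (1 + e) * ((l - (3 + ε)) / 2 * X) ≤
      (1 + e) * (D + d * (max C 0 + 7 * Real.log 2)) := by
    have e4 : (1 + e) * ((l - (3 + ε)) / 2 * X) = l / 2 * X + (e * l - ε) / 2 * X -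
        e * ε / 2 * X - (1 + e) * (3 / 2 * X) := by ring
    rw [e4, hel, sub_self, zero_div, zero_mul, add_zero]
    have h11 : 0 ≤ e * ε / 2 * X := by positivity
    have h12 : 0 ≤ e * (d * max C 0) := by positivity
    have h13 : 0 ≤ e * (d * Real.log 2) := by positivity
    nlinarith
  have h11 : (l - (3 + ε)) / 2 * X ≤ D + d * (max C 0 + 7 * Real.log 2) :=
    le_of_mul_le_mul_left h10 (by linarith)
  have h12 := div_le_div_of_nonneg_right h11 hd0.le
  refine le_trans (le_of_eq ?_) (h12.trans (le_of_eq ?_))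
  · ring
  · field_simp

/-- **The uniform abc conjecture and hyperelliptic curves.** Let `k` be any natural number (the
Chebyshev polynomial `T` has degree `2 ^ k`).
(1) The uniform abc conjecture follows if for every `δ > 0` there are `l ≥ 1` and `c` such that
`(1 - δ) l / 2 h(x) ≤ log δ_M + c` for all points `(x, y)` of the curve `y ^ 2 = 1 - 4 x ^ l` over
all number fields `M` with `y` in the thin set `T(M)`.
(2) Conversely it implies `((l - 3) / 2 - ε) h(x) ≤ log δ_M + c` for all odd `l` and all such points.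
(3) So for every `k` the uniform abc conjecture is equivalent to Vojta's inequality with `D = 0`,
uniformly for the algebraic points of all degrees, on the curves `y ^ 2 = 1 - 4 x ^ l`, `l` odd, at
the points with `y` in `T(M)`. -/
theorem result (k : ℕ) :
    ((∀ δ : ℝ, 0 < δ → ∃ l : ℕ, 1 ≤ l ∧ UniformHyperelliptic k l (δ * l)) → UniformABC) ∧
    (UniformABC → ∀ l : ℕ, Odd l → ∀ ε : ℝ, 0 < ε → UniformHyperelliptic k l (3 + ε)) ∧
    (UniformABC ↔ ∀ l : ℕ, Odd l → ∀ ε : ℝ, 0 < ε → UniformHyperelliptic k l (3 + ε)) := by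
  refine ⟨to_abc, fun h l hl ε hε => of_abc hl h hε,
    fun h l hl ε hε => of_abc hl h hε, fun h => to_abc (k := k) fun δ hδ => ?_⟩
  obtain ⟨m, hm⟩ := exists_nat_gt (4 / δ)
  have hm0 : (0 : ℝ) < m := lt_trans (by positivity) hm
  refine ⟨2 * m + 1, by omega, ?_⟩
  obtain ⟨c, hc⟩ := h (2 * m + 1) ⟨m, rfl⟩ 1 one_pos
  refine ⟨c, fun M _ _ x y u hxy hu => le_trans ?_ (hc M x y u hxy hu)⟩
  refine mul_le_mul_of_nonneg_right ?_ (height_nonneg x)
  rw [div_lt_iff₀ hδ] at hm
  push_cast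
  nlinarith

end Pool.Agent.Results.MP_6e34ef_nt.HyperellipticCurvesSuffice
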