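import Pool.Agent.Q239.U.UFinal

/-!
# The uniform abc conjecture follows from its restriction to the solutions of `x² + y³ = z⁵`

Let `(p, q, r)` be one of `(2,3,5)`, `(2,3,4)`, `(2,3,3)`, `(2,k,2)`, `(1,k,k)`. The abc inequality
`H ≤ C (δ_K N) ^ (1 + ε)` with a constant `C` which does not depend on the number field `K`, for all
triples over all number fields, is equivalent to the same inequality for the triples
`(x ^ p, y ^ q, -z ^ r)` with `x ^ p + y ^ q = z ^ r` which are locally primitive outside `n`; the
integer `n` does not depend on the number field.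
-/

set_option autoImplicit false

namespace Pool.Agent.Results.MP_6e34ef_nt.SphericalSolutionsAllFields

open NumberField Pool.Agent.Q239.NF Pool.Agent.Q239.U

/-- the vectors `(x ^ p, y ^ q, -z ^ r)` over `K` such that at every finite place `v` with
`|n|_v = 1` the maximum of the absolute values of the coordinates is the absolute value of an `l`-th
power, `l` the least common multiple of `p, q, r` (if it is `|t|_v ^ l`, then `x, y, z` divided by
`t ^ (l / p), t ^ (l / q), t ^ (l / r)` are a solution which is integral and primitive at `v`) -/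
def Solutions {K : Type} [Field K] [NumberField K] (p q r n : ℕ) : Set (Fin 3 → K) :=
  {s | (∃ x y z : K, s = ![x ^ p, y ^ q, -z ^ r]) ∧
    ∀ v : FinitePlace K, v (n : K) = 1 → ∃ t : K, t ≠ 0 ∧
      (⨆ i, v (s i)) = v t ^ (Nat.lcm p (Nat.lcm q r))}

/-- For `(p, q, r) = (2,3,5)`, `(2,3,4)`, `(2,3,3)`, `(2,k,2)` or `(1,k,k)` there is `n ≠ 0` such that the
uniform abc conjecture over all number fields is equivalent to its restriction to the solutions of
`x ^ p + y ^ q = z ^ r` which are primitive outside `n`. -/
theorem result (p q r : ℕ)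
    (h : (p, q, r) = (2, 3, 5) ∨ (p, q, r) = (2, 3, 4) ∨ (p, q, r) = (2, 3, 3) ∨
      (∃ k : ℕ, 1 ≤ k ∧ (p, q, r) = (2, k, 2)) ∨ ∃ k : ℕ, 1 ≤ k ∧ (p, q, r) = (1, k, k)) :
    ∃ n : ℕ, n ≠ 0 ∧ (UniformABC (fun _ _ _ => Set.univ) ↔
      UniformABC (fun K _ _ => Solutions (K := K) p q r n)) := by
  obtain ⟨n, hn, hu⟩ := uniform_sphere p q r h
  refine ⟨n, hn, uniform_mono fun K _ _ => Set.subset_univ _, ?_⟩
  rw [uniform_iff, uniform_iff]
  exact hu

end Pool.Agent.Results.MP_6e34ef_nt.SphericalSolutionsAllFields
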