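import Pool.Agent.Q245.Vl.Tri

/-!
# The uniform abc conjecture over all totally real fields

The uniform abc conjecture of Vojta for all totally real number fields is equivalent to the same
inequality for the triples `a + b + c = 0` over arbitrary number fields with `|τ(a)| = |τ(b)|` for all
embeddings `τ` of the field into `ℂ`, that is for the numbers `- a / b` all of whose conjugates lie on
the unit circle.

If `t` is totally real, all conjugates of `x = (t + i) / (t - i)` lie on the unit circle, and all such
numbers `x ≠ 1` are of this form. The points `x = 0, ∞, 1` correspond to `t = - i, i, ∞`. So the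
restricted conjecture concerns the divisor `∞ + {t² = -1}` over totally real fields, and we use a
covering of the line which is ramified only over this divisor and has four rational points above
`∞` (see `MP_44a246_nt.ConjugatePairBoundedDegree`), with all constants uniform in the field.
-/

set_option autoImplicit false

namespace Pool.Agent.Results.MP_6e34ef_nt.TotallyRealFields

open NumberField Height

/-- `log H(x)`, the absolute logarithmic height of the point `(x 0 : x 1 : x 2)` -/
noncomputable def logH {K : Type} [Field K] [NumberField K] (x : Fin 3 → K) : ℝ :=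
  Height.logHeight x / (Module.finrank ℚ K : ℝ)

/-- `log N(x)`, the sum of `log N(v) / [K : ℚ]` over the finite places `v` at which the absolute
values of the coordinates are not all equal -/
noncomputable def logN {K : Type} [Field K] [NumberField K] (x : Fin 3 → K) : ℝ :=
  (∑ᶠ v ∈ {v : FinitePlace K | ∃ i j, v (x i) ≠ v (x j)},
    Real.log ((Ideal.absNorm v.maximalIdeal.asIdeal : ℕ) : ℝ)) / (Module.finrank ℚ K : ℝ)

/-- the logarithm of the root discriminant -/
noncomputable def logRootDisc (K : Type) [Field K] [NumberField K] : ℝ :=
  Real.log |(discr K : ℝ)| / (Module.finrank ℚ K : ℝ)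

/-- the uniform abc inequality for the triples in `P`: for every `ε > 0` there is `C` such that
`log H(x) ≤ (1 + ε) (log δ_K + log N(x)) + C` for all number fields `K` and all vectors `x` over `K`
in `P` with nonzero coordinates and `x 0 + x 1 + x 2 = 0` -/
def UniformABC (P : ∀ (K : Type) [Field K] [NumberField K], (Fin 3 → K) → Prop) : Prop :=
  ∀ ε : ℝ, 0 < ε → ∃ C : ℝ, ∀ (K : Type) [Field K] [NumberField K] (x : Fin 3 → K), P K x →
    x 0 + x 1 + x 2 = 0 → (∀ i, x i ≠ 0) →
    logH x ≤ (1 + ε) * (logRootDisc K + logN x) + C

lemma real_iff (K : Type) [Field K] [NumberField K] :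
    IsTotallyReal K ↔ Pool.Agent.Q245.Vl.TR K := by
  rw [isTotallyReal_iff]
  constructor
  · intro h τ y
    have h1 : ComplexEmbedding.IsReal τ :=
      (InfinitePlace.isReal_mk_iff).mp (h (InfinitePlace.mk τ))
    exact RingHom.congr_fun (ComplexEmbedding.isReal_iff.mp h1) y
  · intro h v
    rw [← InfinitePlace.mk_embedding v, InfinitePlace.isReal_mk_iff, ComplexEmbedding.isReal_iff]
    ext y
    exact h v.embedding y

/-- **The uniform abc conjecture for all totally real fields is equivalent to the same inequality
for the triples `x 0 + x 1 + x 2 = 0`, over all number fields `K`, with `|τ (x 0)| = |τ (x 1)|` for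
all embeddings `τ : K → ℂ`.** -/
theorem result :
    UniformABC (fun K _ _ _ => IsTotallyReal K) ↔
      UniformABC (fun K _ _ x => ∀ τ : K →+* ℂ, ‖τ (x 0)‖ = ‖τ (x 1)‖) := by
  have h := Pool.Agent.Q245.Vl.main_uniform
  have e : (fun (K : Type) [Field K] [NumberField K] (_ : Fin 3 → K) => IsTotallyReal K) =
      (fun (K : Type) [Field K] [NumberField K] (_ : Fin 3 → K) => Pool.Agent.Q245.Vl.TR K) := by
    funext K _ _ _
    exact propext (real_iff K)
  rw [e]
  exact h

end Pool.Agent.Results.MP_6e34ef_nt.TotallyRealFields
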